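import Mathlib

/-!
# The inequality of Hoelder over the positions: integrals over the positions, numbers
-/

set_option autoImplicit false

open MeasureTheory Set Filter
open scoped ENNReal

namespace Pool.Agent.H16.BG

section L

variable {Z T : Type} [MeasurableSpace Z] [MeasurableSpace T] (μ : Measure Z) (ν : Measure T)
  [SFinite μ] [SFinite ν] {ι : Type} [Fintype ι]

/-- the integral over the positions -/
noncomputable def Lf (J : Set ℝ) (h : ℝ → ι → Z → T → ℝ≥0∞) : ℝ≥0∞ :=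
  ∫⁻ τ in J, ∑ c, ∫⁻ z, ∫⁻ θ, h τ c z θ ∂ν ∂μ

omit [SFinite μ] [SFinite ν] in
lemma Lf_mono {J : Set ℝ} {h h' : ℝ → ι → Z → T → ℝ≥0∞} (H : ∀ τ c z θ, h τ c z θ ≤ h' τ c z θ) :
    Lf μ ν J h ≤ Lf μ ν J h' := by
  unfold Lf
  refine lintegral_mono fun τ => Finset.sum_le_sum fun c _ => lintegral_mono fun z =>
    lintegral_mono fun θ => H τ c z θ

omit [SFinite μ] [SFinite ν] in
lemma Lf_mono_set {J J' : Set ℝ} (hJ : J ⊆ J') (h : ℝ → ι → Z → T → ℝ≥0∞) :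
    Lf μ ν J h ≤ Lf μ ν J' h := by
  unfold Lf
  exact lintegral_mono_set hJ

omit [SFinite μ] [SFinite ν] in
lemma Lf_zero {J : Set ℝ} : Lf μ ν J (fun _ (_ : ι) _ _ => 0) = 0 := by
  unfold Lf
  simp

omit [SFinite μ] [SFinite ν] in
lemma Lf_add_le {J : Set ℝ} (h h' : ℝ → ι → Z → T → ℝ≥0∞) :
    Lf μ ν J h + Lf μ ν J h' ≤ Lf μ ν J (fun τ c z θ => h τ c z θ + h' τ c z θ) := by
  unfold Lf
  refine (le_lintegral_add _ _).trans (lintegral_mono fun τ => ?_)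
  simp only
  rw [← Finset.sum_add_distrib]
  refine Finset.sum_le_sum fun c _ => ?_
  refine (le_lintegral_add _ _).trans (lintegral_mono fun z => ?_)
  exact le_lintegral_add _ _

omit [SFinite μ] [SFinite ν] in
lemma Lf_sum_le {J : Set ℝ} (P : Finset ℕ) (h : ℕ → ℝ → ι → Z → T → ℝ≥0∞) :
    ∑ a ∈ P, Lf μ ν J (h a) ≤ Lf μ ν J (fun τ c z θ => ∑ a ∈ P, h a τ c z θ) := by
  classical
  induction P using Finset.induction_on with
  | empty => simp
  | insert a P ha ih =>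
    rw [Finset.sum_insert ha]
    have h1 : (fun τ c z θ => ∑ b ∈ insert a P, h b τ c z θ) =
        fun τ (c : ι) z θ => h a τ c z θ + ∑ b ∈ P, h b τ c z θ := by
      funext τ c z θ
      rw [Finset.sum_insert ha]
    rw [h1]
    exact (add_le_add le_rfl ih).trans (Lf_add_le μ ν _ _)

omit [Fintype ι] in
lemma meas_inner {h : ℝ → ι → Z → T → ℝ≥0∞}
    (hm : ∀ c, Measurable (fun u : ℝ × Z × T => h u.1 c u.2.1 u.2.2)) (c : ι) :
    Measurable (fun u : ℝ × Z => ∫⁻ θ, h u.1 c u.2 θ ∂ν) := by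
  have h1 : Measurable (fun u : (ℝ × Z) × T => h u.1.1 c u.1.2 u.2) :=
    (hm c).comp (by fun_prop : Measurable (fun u : (ℝ × Z) × T => (u.1.1, u.1.2, u.2)))
  exact h1.lintegral_prod_right'

lemma meas_outer {h : ℝ → ι → Z → T → ℝ≥0∞}
    (hm : ∀ c, Measurable (fun u : ℝ × Z × T => h u.1 c u.2.1 u.2.2)) :
    Measurable (fun τ : ℝ => ∑ c, ∫⁻ z, ∫⁻ θ, h τ c z θ ∂ν ∂μ) := by
  refine Finset.measurable_sum _ fun c _ => ?_
  exact (meas_inner ν hm c).lintegral_prod_right'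

lemma Lf_add {J : Set ℝ} {h h' : ℝ → ι → Z → T → ℝ≥0∞}
    (hm : ∀ c, Measurable (fun u : ℝ × Z × T => h u.1 c u.2.1 u.2.2)) :
    Lf μ ν J (fun τ c z θ => h τ c z θ + h' τ c z θ) = Lf μ ν J h + Lf μ ν J h' := by
  unfold Lf
  rw [← lintegral_add_left (meas_outer μ ν hm)]
  refine lintegral_congr fun τ => ?_
  rw [← Finset.sum_add_distrib]
  refine Finset.sum_congr rfl fun c _ => ?_
  have h1 : Measurable (fun z => ∫⁻ θ, h τ c z θ ∂ν) :=
    (meas_inner ν hm c).comp (by fun_prop : Measurable (fun z : Z => (τ, z)))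
  rw [← lintegral_add_left h1]
  refine lintegral_congr fun z => ?_
  have h2 : Measurable (fun θ => h τ c z θ) :=
    (hm c).comp (by fun_prop : Measurable (fun θ : T => (τ, z, θ)))
  rw [← lintegral_add_left h2]

omit [SFinite μ] [SFinite ν] in
lemma Lf_const {J : Set ℝ} (k : ℝ≥0∞) (hk : k ≠ ∞) (h : ℝ → ι → Z → T → ℝ≥0∞) :
    Lf μ ν J (fun τ c z θ => k * h τ c z θ) = k * Lf μ ν J h := by
  unfold Lf
  rw [← lintegral_const_mul' _ _ hk]
  refine lintegral_congr fun τ => ?_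
  rw [Finset.mul_sum]
  refine Finset.sum_congr rfl fun c _ => ?_
  rw [← lintegral_const_mul' _ _ hk]
  refine lintegral_congr fun z => ?_
  rw [← lintegral_const_mul' _ _ hk]

omit [SFinite μ] [SFinite ν] in
lemma Lf_trans (a b t : ℝ) (h : ℝ → ι → Z → T → ℝ≥0∞) :
    Lf μ ν (Icc a b) (fun τ => h (τ + t)) = Lf μ ν (Icc (a + t) (b + t)) h := by
  unfold Lf
  rw [← lintegral_indicator measurableSet_Icc, ← lintegral_indicator measurableSet_Icc]
  conv_rhs => rw [← lintegral_add_right_eq_self _ t]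
  refine lintegral_congr fun τ => ?_
  by_cases hτ : τ ∈ Icc a b
  · have h2 : τ + t ∈ Icc (a + t) (b + t) := ⟨by linarith [hτ.1], by linarith [hτ.2]⟩
    rw [indicator_of_mem hτ, indicator_of_mem h2]
  · have h2 : τ + t ∉ Icc (a + t) (b + t) := fun h3 =>
      hτ ⟨by linarith [h3.1], by linarith [h3.2]⟩
    rw [indicator_of_notMem hτ, indicator_of_notMem h2]

omit [SFinite μ] [SFinite ν] in
/-- functions which do not depend on the angles -/
lemma Lf_angle {J : Set ℝ} (k : ℝ → ι → Z → ℝ≥0∞) (hν : ν univ ≠ ∞) :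
    Lf μ ν J (fun τ c z _ => k τ c z) = ν univ * ∫⁻ τ in J, ∑ c, ∫⁻ z, k τ c z ∂μ := by
  unfold Lf
  rw [← lintegral_const_mul' _ _ hν]
  refine lintegral_congr fun τ => ?_
  rw [Finset.mul_sum]
  refine Finset.sum_congr rfl fun c _ => ?_
  rw [← lintegral_const_mul' _ _ hν]
  refine lintegral_congr fun z => ?_
  rw [lintegral_const, mul_comm]

end L

/-- superadditivity of the integral for finite sums -/
lemma sum_lintegral_le {α : Type} [MeasurableSpace α] (μ : Measure α) (P : Finset ℕ)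
    (f : ℕ → α → ℝ≥0∞) : ∑ a ∈ P, ∫⁻ s, f a s ∂μ ≤ ∫⁻ s, ∑ a ∈ P, f a s ∂μ := by
  classical
  induction P using Finset.induction_on with
  | empty => simp
  | insert a P ha ih =>
    rw [Finset.sum_insert ha]
    have h1 : (fun s => ∑ b ∈ insert a P, f b s) = fun s => f a s + ∑ b ∈ P, f b s := by
      funext s
      rw [Finset.sum_insert ha]
    rw [h1]
    exact (add_le_add le_rfl ih).trans (le_lintegral_add _ _)

/-- the weighted inequality of the means -/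
lemma amgm_real {x t D c₁ c₂ c₃ : ℝ} (hx : 0 ≤ x) (ht : 0 ≤ t) (hD : 0 < D) (h1 : 0 < c₁)
    (h2 : 0 < c₂) (h3 : 0 < c₃) :
    x * t ≤ D * (c₁ ^ (1 / 2 : ℝ) * c₂ ^ (1 / 4 : ℝ) * c₃ ^ (1 / 4 : ℝ)) *
      (1 / (2 * c₁) * x + 1 / (4 * c₂) * x ^ 2 + 1 / (4 * c₃) * (t / D) ^ 4) := by
  have key := Real.geom_mean_le_arith_mean3_weighted (w₁ := 1 / 2) (w₂ := 1 / 4) (w₃ := 1 / 4)
    (p₁ := x / c₁) (p₂ := x ^ 2 / c₂) (p₃ := (t / D) ^ 4 / c₃) (by norm_num) (by norm_num)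
    (by norm_num) (by positivity) (by positivity) (by positivity) (by norm_num)
  rw [Real.div_rpow hx h1.le, Real.div_rpow (by positivity) h2.le,
    Real.div_rpow (by positivity) h3.le] at key
  have e1 : (x ^ 2 : ℝ) ^ (1 / 4 : ℝ) = x ^ (1 / 2 : ℝ) := by
    rw [← Real.rpow_natCast x 2, ← Real.rpow_mul hx]
    norm_num
  have e2 : ((t / D) ^ 4 : ℝ) ^ (1 / 4 : ℝ) = t / D := by
    rw [← Real.rpow_natCast (t / D) 4, ← Real.rpow_mul (by positivity)]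
    norm_num
  have e3 : x ^ (1 / 2 : ℝ) * x ^ (1 / 2 : ℝ) = x := by
    rw [← Real.rpow_add' hx (by norm_num)]
    norm_num
  rw [e1, e2] at key
  have hk1 : 0 < c₁ ^ (1 / 2 : ℝ) := Real.rpow_pos_of_pos h1 _
  have hk2 : 0 < c₂ ^ (1 / 4 : ℝ) := Real.rpow_pos_of_pos h2 _
  have hk3 : 0 < c₃ ^ (1 / 4 : ℝ) := Real.rpow_pos_of_pos h3 _
  have e4 : x * t = D * (c₁ ^ (1 / 2 : ℝ) * c₂ ^ (1 / 4 : ℝ) * c₃ ^ (1 / 4 : ℝ)) *
      (x ^ (1 / 2 : ℝ) / c₁ ^ (1 / 2 : ℝ) * (x ^ (1 / 2 : ℝ) / c₂ ^ (1 / 4 : ℝ)) *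
        (t / D / c₃ ^ (1 / 4 : ℝ))) := by
    have e5 : D * (c₁ ^ (1 / 2 : ℝ) * c₂ ^ (1 / 4 : ℝ) * c₃ ^ (1 / 4 : ℝ)) *
      (x ^ (1 / 2 : ℝ) / c₁ ^ (1 / 2 : ℝ) * (x ^ (1 / 2 : ℝ) / c₂ ^ (1 / 4 : ℝ)) *
        (t / D / c₃ ^ (1 / 4 : ℝ))) = (x ^ (1 / 2 : ℝ) * x ^ (1 / 2 : ℝ)) * t := by
      field_simp
    rw [e5, e3]
  rw [e4]
  refine mul_le_mul_of_nonneg_left (key.trans (le_of_eq ?_)) (by positivity)
  field_simp

end Pool.Agent.H16.BG
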