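import Pool.Agent.H16.BG.HLa
import Pool.Agent.H23.BG.TargetsP

/-!
# The inequality of Hoelder over the positions: one position
-/

set_option autoImplicit false

open NumberField NumberField.InfinitePlace NumberField.Units
  NumberField.Units.dirichletUnitTheorem MeasureTheory Set Filter Complex
open scoped nonZeroDivisors ENNReal

namespace Pool.Agent.H16.BG

open Pool.Agent.H25.HK Pool.Agent.H23.LB Pool.Agent.H23.LC Pool.Agent.H29.DW Pool.Agent.H23.BG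
open Pool.Agent.H28.RC (Rep ft idl)
open Pool.Agent.H29.TC (dvs cq LC Gn MC)

/-- the weighted inequality of the means -/
lemma amgm {ν : ℝ≥0∞} {t D c₁ c₂ c₃ : ℝ} (ht : 0 ≤ t) (hD : 0 < D) (h1 : 0 < c₁)
    (h2 : 0 < c₂) (h3 : 0 < c₃) :
    ν * ENNReal.ofReal t ≤
      ENNReal.ofReal (D * (c₁ ^ (1 / 2 : ℝ) * c₂ ^ (1 / 4 : ℝ) * c₃ ^ (1 / 4 : ℝ))) *
      (ENNReal.ofReal (1 / (2 * c₁)) * ν + ENNReal.ofReal (1 / (4 * c₂)) * ν ^ 2 +
        ENNReal.ofReal (1 / (4 * c₃)) * ENNReal.ofReal ((t / D) ^ 4)) := by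
  have hk : 0 < D * (c₁ ^ (1 / 2 : ℝ) * c₂ ^ (1 / 4 : ℝ) * c₃ ^ (1 / 4 : ℝ)) := by
    have hk1 : 0 < c₁ ^ (1 / 2 : ℝ) := Real.rpow_pos_of_pos h1 _
    have hk2 : 0 < c₂ ^ (1 / 4 : ℝ) := Real.rpow_pos_of_pos h2 _
    have hk3 : 0 < c₃ ^ (1 / 4 : ℝ) := Real.rpow_pos_of_pos h3 _
    positivity
  by_cases hν : ν = ∞
  · have e1 : ENNReal.ofReal (1 / (2 * c₁)) * ∞ = ∞ :=
      ENNReal.mul_top (by rw [Ne, ENNReal.ofReal_eq_zero, not_le]; positivity)
    rw [hν, e1, top_add, top_add,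
      ENNReal.mul_top (by rw [Ne, ENNReal.ofReal_eq_zero, not_le]; exact hk)]
    exact le_top
  · obtain ⟨x, hx, rfl⟩ : ∃ x : ℝ, 0 ≤ x ∧ ν = ENNReal.ofReal x :=
      ⟨ν.toReal, ENNReal.toReal_nonneg, (ENNReal.ofReal_toReal hν).symm⟩
    rw [← ENNReal.ofReal_mul hx, ← ENNReal.ofReal_pow hx, ← ENNReal.ofReal_mul (by positivity),
      ← ENNReal.ofReal_mul (by positivity), ← ENNReal.ofReal_mul (by positivity),
      ← ENNReal.ofReal_add (by positivity) (by positivity),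
      ← ENNReal.ofReal_add (by positivity) (by positivity), ← ENNReal.ofReal_mul hk.le]
    exact ENNReal.ofReal_le_ofReal (amgm_real hx ht hD h1 h2 h3)

lemma Sq1_vol : volume Sq1 ≤ 1 := by
  have h1 : Sq1 ⊆ Metric.closedBall (0 : ℂ) (1 / 2) := by
    rintro s ⟨h1, h2⟩
    rw [Metric.mem_closedBall, dist_zero_right]
    have := Complex.norm_le_abs_re_add_abs_im s
    linarith
  refine (measure_mono h1).trans ?_
  rw [Complex.volume_closedBall]
  have h2 : ENNReal.ofReal (1 / 2) ^ 2 * (NNReal.pi : ℝ≥0∞) =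
      ENNReal.ofReal ((1 / 2) ^ 2 * Real.pi) := by
    rw [ENNReal.ofReal_mul (by positivity), ENNReal.ofReal_pow (by positivity)]
    congr 1
    rw [ENNReal.ofReal, Real.toNNReal_of_nonneg Real.pi_pos.le]
    rfl
  rw [h2, ← ENNReal.ofReal_one]
  refine ENNReal.ofReal_le_ofReal ?_
  have := Real.pi_le_four
  linarith

section NF

variable {K : Type} [Field K] [NumberField K]

lemma SqK_vol : volume (SqK K) ≤ 1 := by
  unfold SqK
  rw [volume_pi_pi]
  exact Finset.prod_le_one' fun v _ => Sq1_vol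

lemma card_places {n : ℕ} (hn : Module.finrank ℚ K = n) :
    Fintype.card (InfinitePlace K) ≤ n := by
  have h1 := card_add_two_mul_card_eq_rank K
  have h2 := card_eq_nrRealPlaces_add_nrComplexPlaces K
  rw [hn] at h1
  omega

lemma An_vol' {n : ℕ} (hn : Module.finrank ℚ K = n) :
    volume (An K) ≤ ENNReal.ofReal ((2 * Real.pi) ^ n) := by
  unfold An
  rw [volume_pi_pi]
  simp only [Real.volume_Icc, sub_zero, Finset.prod_const, Finset.card_univ]
  rw [← ENNReal.ofReal_pow (by positivity)]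
  refine ENNReal.ofReal_le_ofReal ?_
  refine pow_le_pow_right₀ ?_ (card_places hn)
  have := Real.pi_gt_three
  linarith

lemma yM_log {n : ℕ} (hn : Module.finrank ℚ K = n) (hn0 : 0 < n) (M : FI K) (τ l : ℝ)
    (z : logSpace K) (v : InfinitePlace K) :
    yM K M (τ + n * l) z v = yM K M τ z v + 2 * l := by
  unfold yM yc
  rw [hn]
  have hn' : (n : ℝ) ≠ 0 := by positivity
  have e : 2 * (τ + n * l - Real.log (FractionalIdeal.absNorm M : ℝ)) / n =
      2 * (τ - Real.log (FractionalIdeal.absNorm M : ℝ)) / n + 2 * l := by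
    field_simp
    ring
  rw [e]
  ring

open scoped Classical in
/-- the bound at one position -/
lemma position (hT4 : P_T4) {f : Ideal (𝓞 K)} (χ : HG K f) (M : FI K)
    (X : Finset K) (H : InfinitePlace K → ℝ) (P : Finset ℕ) (y' : InfinitePlace K → ℝ)
    (ω : InfinitePlace K → ℂ) (S : Finset K)
    (hS : (S : Set K) = Bx K M (fun v => y' v + hs H v))
    (β : (InfinitePlace K → ℂ) → (InfinitePlace K → ℂ) → ℂ) {D c₁ c₂ c₃ : ℝ} (hD : 0 < D)
    (hβ : ∀ s b, ‖β s b‖ ≤ D) (h1 : 0 < c₁) (h2 : 0 < c₂) (h3 : 0 < c₃) :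
    ∑ a ∈ P, ∫⁻ s in SqK K, ∑ r ∈ X, nu K f M H a y' ω r *
        ENNReal.ofReal (‖∑ b ∈ S, β s (fun v => wv v b y' ω) * cg χ M (r + b)‖ /
          (S.card : ℝ)) ≤
      ENNReal.ofReal (D * (c₁ ^ (1 / 2 : ℝ) * c₂ ^ (1 / 4 : ℝ) * c₃ ^ (1 / 4 : ℝ))) *
      (ENNReal.ofReal (1 / (2 * c₁)) * (∑ r ∈ X, ∑ a ∈ P, nu K f M H a y' ω r) +
        ENNReal.ofReal (1 / (4 * c₂)) * (∑ r ∈ X, (∑ a ∈ P, nu K f M H a y' ω r) ^ 2) +
        ENNReal.ofReal (1 / (4 * c₃)) * ENNReal.ofReal (q4 X (cg χ M)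
          (Bx K M (fun v => y' v + hs H v)))) := by
  refine (sum_lintegral_le _ P _).trans ?_
  have hpt : ∀ s : InfinitePlace K → ℂ, ∑ a ∈ P, ∑ r ∈ X, nu K f M H a y' ω r *
        ENNReal.ofReal (‖∑ b ∈ S, β s (fun v => wv v b y' ω) * cg χ M (r + b)‖ /
          (S.card : ℝ)) ≤
      ENNReal.ofReal (D * (c₁ ^ (1 / 2 : ℝ) * c₂ ^ (1 / 4 : ℝ) * c₃ ^ (1 / 4 : ℝ))) *
      (ENNReal.ofReal (1 / (2 * c₁)) * (∑ r ∈ X, ∑ a ∈ P, nu K f M H a y' ω r) +
        ENNReal.ofReal (1 / (4 * c₂)) * (∑ r ∈ X, (∑ a ∈ P, nu K f M H a y' ω r) ^ 2) +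
        ENNReal.ofReal (1 / (4 * c₃)) * ENNReal.ofReal (q4 X (cg χ M)
          (Bx K M (fun v => y' v + hs H v)))) := by
    intro s
    rw [Finset.sum_comm]
    have hT := hT4 K X (cg χ M) D S (fun b => β s (fun v => wv v b y' ω)) hD.le
      (fun b => hβ _ _)
    rw [hS] at hT
    have hsum : ∑ r ∈ X, ENNReal.ofReal (((‖∑ b ∈ S, β s (fun v => wv v b y' ω) *
        cg χ M (r + b)‖ / (S.card : ℝ)) / D) ^ 4) ≤ ENNReal.ofReal (q4 X (cg χ M)
          (Bx K M (fun v => y' v + hs H v))) := by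
      rw [← ENNReal.ofReal_sum_of_nonneg (fun r _ => by positivity)]
      refine ENNReal.ofReal_le_ofReal ?_
      have e : ∑ r ∈ X, ((‖∑ b ∈ S, β s (fun v => wv v b y' ω) *
          cg χ M (r + b)‖ / (S.card : ℝ)) / D) ^ 4 = (∑ r ∈ X, (‖∑ b ∈ S,
          β s (fun v => wv v b y' ω) * cg χ M (r + b)‖ / (S.card : ℝ)) ^ 4) / D ^ 4 := by
        rw [Finset.sum_div]
        exact Finset.sum_congr rfl fun r _ => div_pow _ _ _
      rw [e, div_le_iff₀ (by positivity), mul_comm]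
      exact hT
    have h4 : ∀ r ∈ X, ∑ a ∈ P, nu K f M H a y' ω r *
        ENNReal.ofReal (‖∑ b ∈ S, β s (fun v => wv v b y' ω) * cg χ M (r + b)‖ /
          (S.card : ℝ)) ≤ ENNReal.ofReal (D * (c₁ ^ (1 / 2 : ℝ) * c₂ ^ (1 / 4 : ℝ) *
            c₃ ^ (1 / 4 : ℝ))) *
          (ENNReal.ofReal (1 / (2 * c₁)) * (∑ a ∈ P, nu K f M H a y' ω r) +
            ENNReal.ofReal (1 / (4 * c₂)) * (∑ a ∈ P, nu K f M H a y' ω r) ^ 2 +
            ENNReal.ofReal (1 / (4 * c₃)) *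
              ENNReal.ofReal (((‖∑ b ∈ S, β s (fun v => wv v b y' ω) *
                cg χ M (r + b)‖ / (S.card : ℝ)) / D) ^ 4)) := by
      intro r _
      rw [← Finset.sum_mul]
      exact amgm (by positivity) hD h1 h2 h3
    refine (Finset.sum_le_sum h4).trans ?_
    rw [← Finset.mul_sum, Finset.sum_add_distrib, Finset.sum_add_distrib, ← Finset.mul_sum,
      ← Finset.mul_sum, ← Finset.mul_sum]
    gcongr
  refine (lintegral_mono hpt).trans ?_
  rw [lintegral_const, Measure.restrict_apply_univ]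
  calc _ ≤ _ * (1 : ℝ≥0∞) := mul_le_mul_right SqK_vol _
    _ = _ := mul_one _

end NF

end Pool.Agent.H16.BG
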