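import Pool.Agent.H23.BG.Defs

/-!
# The middle range: numbers
-/

set_option autoImplicit false

open MeasureTheory Set Filter
open scoped ENNReal

namespace Pool.Agent.H16.BG

open Pool.Agent.H23.BG (Psi)

/-- the choice of the length of the shifts -/
lemma exists_A {n : ℕ} (hn : 0 < n) {N V : ℝ} (hN : (3 * 16 ^ n : ℝ) ^ 16 ≤ N)
    (hV1 : N ^ (3 / 8 : ℝ) ≤ V) :
    ∃ A : ℝ, 1 ≤ A ∧ N ^ (1 / (16 * (n : ℝ))) ≤ A ∧ A ^ n ≤ N ^ (1 / 4 : ℝ) ∧
      3 * 16 ^ n * A ^ n * N ^ (1 / 4 : ℝ) ≤ V ∧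
      V ^ (3 / 4 : ℝ) * N ^ (1 / 8 : ℝ) * A ^ (-(1 / 4) : ℝ) ≤ 3 * 16 ^ n * Psi n N V := by
  have hn1 : (1 : ℝ) ≤ n := by exact_mod_cast hn
  have hn0 : (0 : ℝ) < n := by linarith
  obtain ⟨k, hk⟩ : ∃ k : ℝ, k = 3 * 16 ^ n := ⟨_, rfl⟩
  rw [← hk] at hN ⊢
  have hk1 : 1 ≤ k := by
    rw [hk]
    have : (1 : ℝ) ≤ 16 ^ n := one_le_pow₀ (by norm_num)
    linarith
  have hk0 : 0 < k := by linarith
  have hN0 : 0 < N := lt_of_lt_of_le (by positivity) hN
  have hN1 : 1 ≤ N := le_trans (one_le_pow₀ hk1) hN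
  have hV0 : 0 < V := lt_of_lt_of_le (Real.rpow_pos_of_pos hN0 _) hV1
  -- logarithms
  obtain ⟨a, ha⟩ : ∃ a : ℝ, a = Real.log N := ⟨_, rfl⟩
  obtain ⟨b, hb⟩ : ∃ b : ℝ, b = Real.log V := ⟨_, rfl⟩
  obtain ⟨l, hl⟩ : ∃ l : ℝ, l = Real.log k := ⟨_, rfl⟩
  have hNe : N = Real.exp a := by rw [ha, Real.exp_log hN0]
  have hVe : V = Real.exp b := by rw [hb, Real.exp_log hV0]
  have hke : k = Real.exp l := by rw [hl, Real.exp_log hk0]
  have hl0 : 0 ≤ l := by rw [hl]; exact Real.log_nonneg hk1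
  have pN : ∀ s : ℝ, N ^ s = Real.exp (a * s) := fun s => by
    rw [hNe, ← Real.exp_mul]
  have pV : ∀ s : ℝ, V ^ s = Real.exp (b * s) := fun s => by
    rw [hVe, ← Real.exp_mul]
  have h16 : 16 * l ≤ a := by
    have := Real.log_le_log (by positivity) hN
    rw [Real.log_pow, ← hl, ← ha] at this
    exact_mod_cast this
  have ha0 : 0 ≤ a := by linarith
  have hab : 3 / 8 * a ≤ b := by
    rw [pN, hVe, Real.exp_le_exp] at hV1
    linarith
  -- the logarithm of A ^ n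
  obtain ⟨m, hm⟩ : ∃ m : ℝ, m = min (b - a / 4) (a / 4) - l := ⟨_, rfl⟩
  have hm1 : a / 16 ≤ m := by
    rw [hm]
    have h1 : a / 8 ≤ min (b - a / 4) (a / 4) := le_min (by linarith) (by linarith)
    linarith
  obtain ⟨u, hu⟩ : ∃ u : ℝ, u = 1 / (n : ℝ) := ⟨_, rfl⟩
  have hu0 : 0 < u := by rw [hu]; positivity
  have hu1 : u ≤ 1 := by
    rw [hu, div_le_one hn0]
    exact hn1
  have hun : u * n = 1 := by rw [hu]; field_simp
  have hAn : Real.exp (m * u) ^ n = Real.exp m := by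
    rw [← Real.exp_nat_mul]
    congr 1
    rw [mul_comm (n : ℝ), mul_assoc, hun, mul_one]
  refine ⟨Real.exp (m * u), ?_, ?_, ?_, ?_, ?_⟩
  · rw [Real.one_le_exp_iff]
    have : 0 ≤ m := by linarith
    positivity
  · have e1 : (1 / (16 * (n : ℝ))) = u / 16 := by rw [hu]; field_simp
    rw [e1, pN, Real.exp_le_exp]
    nlinarith
  · rw [hAn, pN, Real.exp_le_exp, hm]
    have := min_le_right (b - a / 4) (a / 4)
    linarith
  · rw [hAn, pN]
    nth_rewrite 1 [hke]
    rw [hVe, ← Real.exp_add, ← Real.exp_add, Real.exp_le_exp, hm]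
    have := min_le_left (b - a / 4) (a / 4)
    linarith
  · have e2 : (Real.exp (m * u)) ^ (-(1 / 4) : ℝ) = Real.exp (m * u * -(1 / 4)) := by
      rw [← Real.exp_mul]
    have e3 : (1 / (16 * (n : ℝ))) = u / 16 := by rw [hu]; field_simp
    have hlu : l * u ≤ l := by nlinarith
    unfold Psi
    rw [e2, pN, pV, e3, pN, pV, pV, pN, pN]
    nth_rewrite 1 [hke]
    split_ifs with hc
    · have hb2 : b ≤ a / 2 := by
        rw [hVe, Real.exp_le_exp] at hc
        linarith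
      have hmin : min (b - a / 4) (a / 4) = b - a / 4 := min_eq_left (by linarith)
      rw [hmin] at hm
      rw [← Real.exp_add, ← Real.exp_add, ← Real.exp_add, ← Real.exp_add, Real.exp_le_exp, hm]
      nlinarith [mul_nonneg (sub_nonneg.2 hu1) (sub_nonneg.2 hb2)]
    · have hb2 : a / 2 ≤ b := by
        rw [not_le, hVe, Real.exp_lt_exp] at hc
        linarith
      have hmin : min (b - a / 4) (a / 4) = a / 4 := min_eq_right (by linarith)
      rw [hmin] at hm
      rw [← Real.exp_add, ← Real.exp_add, ← Real.exp_add, ← Real.exp_add, Real.exp_le_exp, hm]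
      nlinarith

/-- covering an interval by unit intervals -/
lemma cover {g : ℝ → ℝ≥0∞} {a b : ℝ} {B : ℝ≥0∞}
    (h : ∀ k : ℕ, a + k < b → ∫⁻ τ in Icc (a + k) (a + k + 1), g τ ≤ B) :
    ∫⁻ τ in Icc a b, g τ ≤ (⌈b - a⌉₊ : ℝ≥0∞) * B := by
  have key : ∀ m : ℕ, m ≤ ⌈b - a⌉₊ → 1 ≤ m →
      ∫⁻ τ in Icc a (a + m), g τ ≤ (m : ℝ≥0∞) * B := by
    intro m
    induction m with
    | zero => intro _ h1; omega
    | succ m ih =>
      intro hm _
      have hlt : a + m < b := by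
        have h1 : m < ⌈b - a⌉₊ := hm
        rw [Nat.lt_ceil] at h1
        linarith
      have hB := h m hlt
      by_cases h0 : m = 0
      · subst h0
        simp only [Nat.cast_zero, add_zero, zero_add, Nat.cast_one, one_mul] at hB ⊢
        exact hB
      · have hsub : Icc a (a + ((m + 1 : ℕ) : ℝ)) ⊆ Icc a (a + m) ∪ Icc (a + m) (a + m + 1) := by
          rintro x ⟨h1, h2⟩
          push_cast at h2
          rcases le_total x (a + m) with h3 | h3
          · exact Or.inl ⟨h1, h3⟩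
          · exact Or.inr ⟨h3, by linarith⟩
        refine (lintegral_mono_set hsub).trans ((lintegral_union_le _ _ _).trans ?_)
        refine (add_le_add (ih (by omega) (by omega)) hB).trans (le_of_eq ?_)
        push_cast
        ring
  by_cases h0 : ⌈b - a⌉₊ = 0
  · have h1 : b ≤ a := by
      have := Nat.ceil_eq_zero.1 h0
      linarith
    have h2 : volume (Icc a b) = 0 := by
      rw [Real.volume_Icc, ENNReal.ofReal_eq_zero]
      linarith
    rw [Measure.restrict_eq_zero.2 h2]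
    simp
  · refine le_trans (lintegral_mono_set ?_) (key ⌈b - a⌉₊ le_rfl (by omega))
    have := Nat.le_ceil (b - a)
    exact Icc_subset_Icc le_rfl (by linarith)

end Pool.Agent.H16.BG
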