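import Pool.Agent.H16.BG.MRa
import Pool.Agent.H23.BG.TargetsP

/-!
# The middle range: the size of the parameters
-/

set_option autoImplicit false

open NumberField NumberField.InfinitePlace NumberField.Units
  NumberField.Units.dirichletUnitTheorem MeasureTheory Set Filter Complex
open scoped nonZeroDivisors ENNReal

namespace Pool.Agent.H16.BG

open Pool.Agent.H25.HK Pool.Agent.H23.LB Pool.Agent.H23.LC Pool.Agent.H29.DW Pool.Agent.H23.BG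
open Pool.Agent.H28.RC (Rep ft idl)
open Pool.Agent.H29.TC (dvs cq LC Gn MC)

/-- the sizes for the positions in the enlarged interval -/
lemma range_facts {n : ℕ} {N V A s τ₁ τ : ℝ} (hN : 1 ≤ N) (hs : 1 ≤ s) (hA : 1 ≤ A)
    (hV : V = Real.exp (-τ₁) / s) (hV2 : V ≤ N ^ (3 / 4 : ℝ))
    (h3 : 3 * 16 ^ n * A ^ n * N ^ (1 / 4 : ℝ) ≤ V) (h1 : τ₁ + n * Real.log (A / 4) ≤ τ)
    (h2 : τ ≤ τ₁ + 1 + n * Real.log A) :
    A ^ n * (Real.exp (-τ) / s) ≤ 4 ^ n * V ∧ 16 ^ n * N ^ (1 / 4 : ℝ) ≤ Real.exp (-τ) / s ∧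
      Real.exp |τ| ≤ 4 ^ n * (N * s) := by
  have hs0 : 0 < s := by linarith
  have hA0 : 0 < A := by linarith
  have hAn : (1 : ℝ) ≤ A ^ n := one_le_pow₀ hA
  have hq : (1 : ℝ) ≤ N ^ (1 / 4 : ℝ) := Real.one_le_rpow hN (by norm_num)
  have h16 : (1 : ℝ) ≤ 16 ^ n := one_le_pow₀ (by norm_num)
  have e1 : Real.exp (n * Real.log A) = A ^ n := by
    rw [Real.exp_nat_mul, Real.exp_log hA0]
  have e2 : Real.exp (n * Real.log (A / 4)) = A ^ n / 4 ^ n := by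
    rw [Real.exp_nat_mul, Real.exp_log (by positivity), div_pow]
  -- upper bound
  have u1 : Real.exp (-τ) * (A ^ n / 4 ^ n) ≤ Real.exp (-τ₁) := by
    rw [← e2, ← Real.exp_add, Real.exp_le_exp]
    linarith
  have g1 : A ^ n * (Real.exp (-τ) / s) ≤ 4 ^ n * V := by
    rw [hV]
    have h5 : A ^ n * (Real.exp (-τ) / s) = 4 ^ n * ((Real.exp (-τ) * (A ^ n / 4 ^ n)) / s) := by
      field_simp
    rw [h5]
    gcongr
  -- lower bound
  have l1 : Real.exp (-τ₁) ≤ Real.exp (-τ) * (Real.exp 1 * A ^ n) := by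
    rw [← e1, ← Real.exp_add, ← Real.exp_add, Real.exp_le_exp]
    linarith
  have hexp : Real.exp 1 ≤ 3 := by
    have := Real.exp_one_lt_d9
    linarith
  have g2 : 16 ^ n * N ^ (1 / 4 : ℝ) ≤ Real.exp (-τ) / s := by
    have h5 : V ≤ (Real.exp (-τ) / s) * (3 * A ^ n) := by
      rw [hV]
      have h6 : Real.exp (-τ) / s * (3 * A ^ n) = (Real.exp (-τ) * (3 * A ^ n)) / s := by ring
      rw [h6]
      refine div_le_div_of_nonneg_right (l1.trans ?_) hs0.le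
      gcongr
    have h7 : (16 ^ n * N ^ (1 / 4 : ℝ)) * (3 * A ^ n) ≤
        (Real.exp (-τ) / s) * (3 * A ^ n) := by
      refine le_trans (le_of_eq ?_) (h3.trans h5)
      ring
    exact le_of_mul_le_mul_right h7 (by positivity)
  refine ⟨g1, g2, ?_⟩
  have g3 : 1 ≤ Real.exp (-τ) / s := le_trans (by nlinarith) g2
  have g4 : s ≤ Real.exp (-τ) := by
    rwa [le_div_iff₀ hs0, one_mul] at g3
  have g5 : 0 ≤ -τ := by
    rw [← Real.one_le_exp_iff]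
    linarith
  rw [abs_of_nonpos (by linarith)]
  have h5 : Real.exp (-τ) / s ≤ 4 ^ n * V := by
    refine le_trans ?_ g1
    have : 0 ≤ Real.exp (-τ) / s := by positivity
    nlinarith
  have h6 : V ≤ N := hV2.trans (by
    calc N ^ (3 / 4 : ℝ) ≤ N ^ (1 : ℝ) := Real.rpow_le_rpow_of_exponent_le hN (by norm_num)
      _ = N := Real.rpow_one N)
  calc Real.exp (-τ) = (Real.exp (-τ) / s) * s := by field_simp
    _ ≤ (4 ^ n * N) * s := by
      refine mul_le_mul_of_nonneg_right (h5.trans ?_) hs0.le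
      gcongr
    _ = 4 ^ n * (N * s) := by ring

/-- the final combination -/
lemma final_numbers {κ ε C4 Bn p K1 Z V W N A c Ψ cv d k : ℝ} (hκ : κ = ε / 40) (hε : 0 < ε)
    (hC4 : 0 < C4) (hB : 0 < Bn) (hp : 0 < p) (hK1 : 0 < K1) (hV : 0 < V) (hW : 1 ≤ W)
    (hN : 1 ≤ N) (hA : 1 ≤ A) (hc : 0 < c) (hΨ : 0 < Ψ) (hcv : 0 < cv) (hd : 1 ≤ d) (hk : 0 < k)
    (hZ : Z = cv * d ^ ((1 + κ) / 2)) (hdW : d ≤ W) (hAW : A ≤ W) (hpA : c * A ^ (1 - ε) ≤ p)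
    (hΨA : V ^ (3 / 4 : ℝ) * N ^ (1 / 8 : ℝ) * A ^ (-(1 / 4) : ℝ) ≤ k * Ψ) :
    C4 * Bn * p⁻¹ * ((K1 * (Z * p * V * W ^ (16 * κ))) ^ (1 / 2 : ℝ) *
      (K1 * (Z * p * V * W ^ (16 * κ))) ^ (1 / 4 : ℝ) *
        (K1 * (Z * N ^ (1 / 2 : ℝ) * W ^ (4 * κ))) ^ (1 / 4 : ℝ)) ≤
      (C4 * K1 * c ^ (-(1 / 4) : ℝ) * k) * Bn * cv * d ^ (1 / 2 : ℝ) * W ^ ε * Ψ := by
  have hW0 : 0 < W := by linarith
  have hN0 : 0 < N := by linarith
  have hA0 : 0 < A := by linarith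
  have hd0 : 0 < d := by linarith
  subst hZ
  obtain ⟨x1, rfl⟩ : ∃ x, C4 = Real.exp x := ⟨Real.log C4, (Real.exp_log hC4).symm⟩
  obtain ⟨x2, rfl⟩ : ∃ x, Bn = Real.exp x := ⟨Real.log Bn, (Real.exp_log hB).symm⟩
  obtain ⟨x3, rfl⟩ : ∃ x, p = Real.exp x := ⟨Real.log p, (Real.exp_log hp).symm⟩
  obtain ⟨x4, rfl⟩ : ∃ x, K1 = Real.exp x := ⟨Real.log K1, (Real.exp_log hK1).symm⟩
  obtain ⟨x5, rfl⟩ : ∃ x, V = Real.exp x := ⟨Real.log V, (Real.exp_log hV).symm⟩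
  obtain ⟨x6, rfl⟩ : ∃ x, W = Real.exp x := ⟨Real.log W, (Real.exp_log hW0).symm⟩
  obtain ⟨x7, rfl⟩ : ∃ x, N = Real.exp x := ⟨Real.log N, (Real.exp_log hN0).symm⟩
  obtain ⟨x8, rfl⟩ : ∃ x, A = Real.exp x := ⟨Real.log A, (Real.exp_log hA0).symm⟩
  obtain ⟨x9, rfl⟩ : ∃ x, c = Real.exp x := ⟨Real.log c, (Real.exp_log hc).symm⟩
  obtain ⟨y1, rfl⟩ : ∃ x, Ψ = Real.exp x := ⟨Real.log Ψ, (Real.exp_log hΨ).symm⟩
  obtain ⟨y2, rfl⟩ : ∃ x, cv = Real.exp x := ⟨Real.log cv, (Real.exp_log hcv).symm⟩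
  obtain ⟨y3, rfl⟩ : ∃ x, d = Real.exp x := ⟨Real.log d, (Real.exp_log hd0).symm⟩
  obtain ⟨y4, rfl⟩ : ∃ x, k = Real.exp x := ⟨Real.log k, (Real.exp_log hk).symm⟩
  simp only [← Real.exp_mul, ← Real.exp_add, ← Real.exp_neg, Real.exp_le_exp,
    Real.one_le_exp_iff] at *
  subst hκ
  have h1 : 0 ≤ ε * x6 := by positivity
  have h2 : ε * y3 ≤ ε * x6 := by gcongr
  have h3 : ε * x8 ≤ ε * x6 := by gcongr
  nlinarith

section NF

variable {K : Type} [Field K] [NumberField K]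

lemma Nf_ge {f : Ideal (𝓞 K)} (hf : f ≠ ⊥) : 1 ≤ Nf K f := by
  unfold Nf
  have h : Ideal.absNorm f ≠ 0 := fun h => hf (Ideal.absNorm_eq_zero_iff.1 h)
  exact_mod_cast Nat.one_le_iff_ne_zero.2 h

lemma discr_ge' : 1 ≤ |(discr K : ℝ)| := by
  have h : (1 : ℤ) ≤ |discr K| := Int.one_le_abs (discr_ne_zero K)
  have h2 : ((1 : ℤ) : ℝ) ≤ ((|discr K| : ℤ) : ℝ) := by exact_mod_cast h
  simpa using h2

lemma HH_ge {H : InfinitePlace K → ℝ} (hH : ∀ v, 1 ≤ H v) : 1 ≤ HH H := by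
  unfold HH
  have : ∀ s : Finset (InfinitePlace K), 1 ≤ ∏ v ∈ s, H v ^ v.mult := by
    intro s
    classical
    induction s using Finset.induction_on with
    | empty => simp
    | insert a s ha ih =>
      rw [Finset.prod_insert ha]
      exact one_le_mul_of_one_le_of_one_le (one_le_pow₀ (hH a)) ih
  exact this _

lemma VV_eq {n : ℕ} (hn : Module.finrank ℚ K = n) {H : InfinitePlace K → ℝ}
    (hH : ∀ v, 1 ≤ H v) (τ : ℝ) : VV K ⊤ (hs H) τ = Vt K H τ / 16 ^ n := by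
  have hHH := HH_ge hH
  have h1 : (∑ v : InfinitePlace K, (v.mult : ℝ) * hs H v) / 2 =
      Real.log (16 ^ n * HH H) := by
    have h2 : (16 : ℝ) ^ n = ∏ v : InfinitePlace K, (16 : ℝ) ^ v.mult := by
      rw [Finset.prod_pow_eq_pow_sum, sum_mult_eq, hn]
    unfold HH
    rw [h2, ← Finset.prod_mul_distrib, Real.log_prod (fun v _ => by
      have := hH v
      positivity), Finset.sum_div]
    refine Finset.sum_congr rfl fun v _ => ?_
    rw [← mul_pow, Real.log_pow]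
    unfold hs
    ring
  unfold VV Vt
  rw [h1, Real.exp_sub, Real.exp_log (by positivity)]
  have h3 : Nf K (⊤ : Ideal (𝓞 K)) = 1 := by
    unfold Nf
    rw [Ideal.absNorm_top]
    simp
  rw [h3]
  field_simp

end NF

end Pool.Agent.H16.BG
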