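import Pool.Agent.H16.BG.MRa

/-!
# The middle range: the moments, numbers
-/

set_option autoImplicit false

open MeasureTheory Set Filter
open scoped ENNReal

namespace Pool.Agent.H16.BG

/-- powers with a small exponent -/
lemma pow_kappa {x W κ e : ℝ} {n m : ℕ} (hx : 0 ≤ x) (hW : 1 ≤ W) (hκ : 0 ≤ κ)
    (hxW : x ≤ 4 ^ n * W ^ m) (he : κ ≤ e) :
    x ^ κ ≤ (4 ^ n) ^ e * W ^ (m * κ) := by
  have h4 : (1 : ℝ) ≤ 4 ^ n := one_le_pow₀ (by norm_num)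
  have hW0 : 0 ≤ W := by linarith
  have h5 : (4 ^ n : ℝ) ^ κ ≤ (4 ^ n : ℝ) ^ e := Real.rpow_le_rpow_of_exponent_le h4 he
  calc x ^ κ ≤ (4 ^ n * W ^ m) ^ κ := Real.rpow_le_rpow hx hxW hκ
    _ = (4 ^ n : ℝ) ^ κ * (W ^ m) ^ κ := Real.mul_rpow (by positivity) (by positivity)
    _ = (4 ^ n : ℝ) ^ κ * W ^ (m * κ) := by
      rw [← Real.rpow_natCast W m, ← Real.rpow_mul hW0]
    _ ≤ _ := mul_le_mul_of_nonneg_right h5 (Real.rpow_nonneg hW0 _)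

/-- the numbers in the second moment -/
lemma second_moment {n : ℕ} (hn : 0 < n) {N V A p V' : ℝ} (hN : 1 ≤ N) (hV : 0 < V)
    (hV2 : V ≤ N ^ (3 / 4 : ℝ)) (hA : 1 ≤ A) (hAn : A ^ n ≤ N ^ (1 / 4 : ℝ)) (hp : 0 ≤ p)
    (hpA : p ≤ A) (hV' : 0 ≤ V') (hV'V : V' ≤ 4 ^ n * V) :
    p * (V' + V' ^ 2 / N) + p ^ 2 * (V' / A ^ n + A ^ n * V' / N + V' ^ 2 / N) ≤
      5 * 16 ^ n * (p * V) := by
  have hN0 : 0 < N := by linarith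
  have h4 : (1 : ℝ) ≤ 4 ^ n := one_le_pow₀ (by norm_num)
  have h416 : (4 : ℝ) ^ n ≤ 16 ^ n := pow_le_pow_left₀ (by norm_num) (by norm_num) n
  have h16 : (16 : ℝ) ^ n = 4 ^ n * 4 ^ n := by
    rw [← mul_pow]
    norm_num
  have hAn1 : (1 : ℝ) ≤ A ^ n := one_le_pow₀ hA
  have hAA : A ≤ A ^ n := le_self_pow₀ hA hn.ne'
  have hq : N ^ (1 / 4 : ℝ) * N ^ (3 / 4 : ℝ) = N := by
    rw [← Real.rpow_add hN0]
    norm_num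
  have hq0 : 0 < N ^ (1 / 4 : ℝ) := Real.rpow_pos_of_pos hN0 _
  have hq1 : (1 : ℝ) ≤ N ^ (1 / 4 : ℝ) := Real.one_le_rpow hN (by norm_num)
  have hqN : N ^ (1 / 4 : ℝ) * N ^ (1 / 4 : ℝ) ≤ N := by
    rw [← Real.rpow_add hN0]
    calc N ^ (1 / 4 + 1 / 4 : ℝ) ≤ N ^ (1 : ℝ) :=
          Real.rpow_le_rpow_of_exponent_le hN (by norm_num)
      _ = N := Real.rpow_one N
  have hpq : p ≤ N ^ (1 / 4 : ℝ) := (hpA.trans hAA).trans hAn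
  have k1 : V' ^ 2 ≤ 16 ^ n * (V * V) := by
    have h5 := mul_le_mul hV'V hV'V hV' (by positivity)
    calc V' ^ 2 = V' * V' := by ring
      _ ≤ 4 ^ n * V * (4 ^ n * V) := h5
      _ = _ := by rw [h16]; ring
  have k2 : p * V' ^ 2 / N ≤ 16 ^ n * V := by
    rw [div_le_iff₀ hN0]
    calc p * V' ^ 2 ≤ N ^ (1 / 4 : ℝ) * (16 ^ n * (V * V)) := by gcongr
      _ ≤ N ^ (1 / 4 : ℝ) * (16 ^ n * (V * N ^ (3 / 4 : ℝ))) := by gcongr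
      _ = 16 ^ n * V * (N ^ (1 / 4 : ℝ) * N ^ (3 / 4 : ℝ)) := by ring
      _ = 16 ^ n * V * N := by rw [hq]
  have k3 : V' ^ 2 / N ≤ 16 ^ n * V := by
    rw [div_le_iff₀ hN0]
    calc V' ^ 2 ≤ 1 * (16 ^ n * (V * V)) := by rw [one_mul]; exact k1
      _ ≤ N ^ (1 / 4 : ℝ) * (16 ^ n * (V * N ^ (3 / 4 : ℝ))) := by gcongr
      _ = 16 ^ n * V * (N ^ (1 / 4 : ℝ) * N ^ (3 / 4 : ℝ)) := by ring
      _ = 16 ^ n * V * N := by rw [hq]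
  have k4 : p * (V' / A ^ n) ≤ 16 ^ n * V := by
    rw [mul_div_assoc', div_le_iff₀ (by positivity)]
    calc p * V' ≤ A ^ n * (4 ^ n * V) := by
          have := hpA.trans hAA
          gcongr
      _ ≤ A ^ n * (16 ^ n * V) := by gcongr
      _ = 16 ^ n * V * A ^ n := by ring
  have k5 : p * (A ^ n * V' / N) ≤ 16 ^ n * V := by
    rw [mul_div_assoc', div_le_iff₀ hN0]
    calc p * (A ^ n * V') ≤ N ^ (1 / 4 : ℝ) * (N ^ (1 / 4 : ℝ) * (4 ^ n * V)) := by gcongr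
      _ = (N ^ (1 / 4 : ℝ) * N ^ (1 / 4 : ℝ)) * (4 ^ n * V) := by ring
      _ ≤ N * (16 ^ n * V) := by gcongr
      _ = 16 ^ n * V * N := by ring
  have k6 : V' ≤ 16 ^ n * V := hV'V.trans (by gcongr)
  have e : p * (V' + V' ^ 2 / N) + p ^ 2 * (V' / A ^ n + A ^ n * V' / N + V' ^ 2 / N) =
      p * (V' + V' ^ 2 / N + (p * (V' / A ^ n) + p * (A ^ n * V' / N) + p * V' ^ 2 / N)) := by
    ring
  rw [e]
  have h5 : V' + V' ^ 2 / N + (p * (V' / A ^ n) + p * (A ^ n * V' / N) + p * V' ^ 2 / N) ≤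
      5 * (16 ^ n * V) := by linarith
  calc _ ≤ p * (5 * (16 ^ n * V)) := mul_le_mul_of_nonneg_left h5 hp
    _ = _ := by ring

/-- integrals over the enlarged interval -/
lemma expand {n : ℕ} {a b : ℝ} (h1 : 0 ≤ b - a) (h2 : b - a ≤ 1 + 2 * n) (g : ℝ → ℝ≥0∞)
    (x : ℝ → ℝ) (Bd T : ℝ) (hB : 0 ≤ Bd) (hg : ∀ τ, a ≤ τ → τ ≤ b →
      ∫⁻ t in Icc τ (τ + 1), g t ≤ ENNReal.ofReal (x τ))
    (hx : ∀ τ, a ≤ τ → τ ≤ b → x τ ≤ Bd) (hT : (2 + 2 * n) * Bd ≤ T) :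
    ∫⁻ t in Icc a b, g t ≤ ENNReal.ofReal T := by
  refine (cover (B := ENNReal.ofReal Bd) fun k hk => ?_).trans ?_
  · have h3 : (0 : ℝ) ≤ k := by positivity
    exact (hg (a + k) (by linarith) hk.le).trans
      (ENNReal.ofReal_le_ofReal (hx (a + k) (by linarith) hk.le))
  · rw [← ENNReal.ofReal_natCast, ← ENNReal.ofReal_mul (by positivity)]
    refine ENNReal.ofReal_le_ofReal (le_trans ?_ hT)
    have h4 := Nat.ceil_lt_add_one h1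
    exact mul_le_mul_of_nonneg_right (by linarith) hB

/-- the length of the enlarged interval -/
lemma len_facts {n : ℕ} {A τ₁ : ℝ} (hA : 1 ≤ A) :
    0 ≤ τ₁ + 1 + n * Real.log A - (τ₁ + n * Real.log (A / 4)) ∧
      τ₁ + 1 + n * Real.log A - (τ₁ + n * Real.log (A / 4)) ≤ 1 + 2 * n := by
  have hlog4 : Real.log 4 ≤ 2 := by
    have h1 : (4 : ℝ) = 2 ^ 2 := by norm_num
    rw [h1, Real.log_pow]
    have := Real.log_two_lt_d9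
    push_cast
    linarith
  have hlog4' : 0 ≤ Real.log 4 := Real.log_nonneg (by norm_num)
  have hn : (0 : ℝ) ≤ n := by positivity
  rw [Real.log_div (by linarith) (by norm_num)]
  constructor <;> nlinarith

/-- sizes of the parameters -/
lemma sizes {d N h W : ℝ} (hd : 1 ≤ d) (hN : 1 ≤ N) (hh : 1 ≤ h) (hW : W = d * N * h) :
    1 ≤ W ∧ d ≤ W ∧ N ≤ W ∧ h ≤ W ∧ N * (Real.sqrt d * h) ≤ W ∧ 1 ≤ Real.sqrt d * h := by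
  have hdN : 1 ≤ d * N := one_le_mul_of_one_le_of_one_le hd hN
  have hNh : 1 ≤ N * h := one_le_mul_of_one_le_of_one_le hN hh
  have hdh : 1 ≤ d * h := one_le_mul_of_one_le_of_one_le hd hh
  have hsd : 1 ≤ Real.sqrt d := by
    rw [← Real.sqrt_one]
    exact Real.sqrt_le_sqrt hd
  have hsd2 : Real.sqrt d ≤ d := by
    rw [Real.sqrt_le_left (by linarith)]
    nlinarith
  subst hW
  refine ⟨one_le_mul_of_one_le_of_one_le hdN hh, ?_, ?_, ?_, ?_,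
    one_le_mul_of_one_le_of_one_le hsd hh⟩
  · calc d = d * 1 := (mul_one d).symm
      _ ≤ d * (N * h) := by gcongr
      _ = _ := by ring
  · calc N = N * 1 := (mul_one N).symm
      _ ≤ N * (d * h) := by gcongr
      _ = _ := by ring
  · calc h = 1 * h := (one_mul h).symm
      _ ≤ d * N * h := by gcongr
  · calc N * (Real.sqrt d * h) ≤ N * (d * h) := by gcongr
      _ = _ := by ring

/-- the first moment, one interval -/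
lemma num1 {n : ℕ} {C Z p V A v h E W κ : ℝ} (hC : 0 ≤ C) (hZ : 0 ≤ Z) (hp : 0 ≤ p)
    (hV : 0 ≤ V) (hA : 1 ≤ A) (hv : 0 ≤ v) (hh : 1 ≤ h) (hE : 0 ≤ E) (hW : 1 ≤ W)
    (hκ : 0 ≤ κ) (hκ1 : κ ≤ 1) (f1 : A ^ n * v ≤ 4 ^ n * V) (f3 : E ≤ 4 ^ n * W)
    (hAW : A ^ n ≤ W) (hhW : h ≤ W) :
    C * Z * p * (A ^ n * v) * (A ^ n * h * E) ^ κ ≤
      C * Z * p * (4 ^ n * V) * ((4 ^ n) ^ (1 : ℝ) * W ^ ((3 : ℕ) * κ)) := by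
  have hx : A ^ n * h * E ≤ 4 ^ n * W ^ 3 := by
    calc A ^ n * h * E ≤ W * W * (4 ^ n * W) := by gcongr
      _ = 4 ^ n * W ^ 3 := by ring
  have hk := pow_kappa (e := 1) (by positivity) hW hκ hx hκ1
  have h1 : 0 ≤ (A ^ n * h * E) ^ κ := Real.rpow_nonneg (by positivity) _
  exact mul_le_mul (mul_le_mul_of_nonneg_left f1 (by positivity)) hk h1 (by positivity)

/-- the second moment, one interval -/
lemma num2 {n : ℕ} (hn : 0 < n) {C Z p V A v h E W κ N : ℝ} (hC : 0 ≤ C) (hZ : 0 ≤ Z) (hp : 0 ≤ p)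
    (hV : 0 < V) (hA : 1 ≤ A) (hv : 0 ≤ v) (hh : 1 ≤ h) (hE : 0 ≤ E) (hW : 1 ≤ W)
    (hκ : 0 ≤ κ) (hκ1 : κ ≤ 1) (f1 : A ^ n * v ≤ 4 ^ n * V) (f3 : E ≤ 4 ^ n * W)
    (hAW : A ^ n ≤ W) (hhW : h ≤ W) (hN : 1 ≤ N) (hNW : N ≤ W) (hV2 : V ≤ N ^ (3 / 4 : ℝ))
    (hAn : A ^ n ≤ N ^ (1 / 4 : ℝ)) (hpA : p ≤ A) :
    C * Z * (p * (A ^ n * v + (A ^ n * v) ^ 2 / N) +
          p ^ 2 * ((A ^ n * v) / A ^ n + A ^ n * (A ^ n * v) / N + (A ^ n * v) ^ 2 / N)) *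
        (N * A ^ n * h * E) ^ (4 * κ) ≤
      C * Z * (5 * 16 ^ n * (p * V)) * ((4 ^ n) ^ (4 : ℝ) * W ^ ((4 : ℕ) * (4 * κ))) := by
  have hx : N * A ^ n * h * E ≤ 4 ^ n * W ^ 4 := by
    calc N * A ^ n * h * E ≤ W * W * W * (4 ^ n * W) := by gcongr
      _ = 4 ^ n * W ^ 4 := by ring
  have hk := pow_kappa (e := 4) (κ := 4 * κ) (by positivity) hW (by positivity) hx
    (by linarith)
  have h2m := second_moment hn hN hV hV2 hA hAn hp hpA (V' := A ^ n * v) (by positivity) f1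
  have h1 : 0 ≤ (N * A ^ n * h * E) ^ (4 * κ) := Real.rpow_nonneg (by positivity) _
  exact mul_le_mul (mul_le_mul_of_nonneg_left h2m (by positivity)) hk h1 (by positivity)

lemma four_le {n : ℕ} : (4 : ℝ) ^ n * 4 ^ n ≤ (5 * 16 ^ n) * (4 ^ n) ^ 4 := by
  have hpow4 : (1 : ℝ) ≤ 4 ^ n := one_le_pow₀ (by norm_num)
  have hpow16 : (1 : ℝ) ≤ 16 ^ n := one_le_pow₀ (by norm_num)
  have h5 : (1 : ℝ) ≤ 5 * 16 ^ n := by linarith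
  calc (4 : ℝ) ^ n * 4 ^ n = 1 * (4 ^ n) ^ 2 := by ring
    _ ≤ (5 * 16 ^ n) * (4 ^ n) ^ 4 := by
      gcongr
      · norm_num

/-- the first moment, total -/
lemma num1' {n : ℕ} {C1 C2 C3 Z p V W κ K1 : ℝ} (hC1 : 0 ≤ C1) (hC2 : 0 ≤ C2) (hC3 : 0 ≤ C3)
    (hZ : 0 ≤ Z) (hp : 0 ≤ p) (hV : 0 ≤ V) (hW : 1 ≤ W) (hκ : 0 ≤ κ)
    (hK1 : K1 = (2 + 2 * n) * (C1 + C2 + C3 + 1) * (5 * 16 ^ n) * (4 ^ n) ^ 4) :
    (2 + 2 * (n : ℝ)) * (C1 * Z * p * (4 ^ n * V) * ((4 ^ n) ^ (1 : ℝ) * W ^ ((3 : ℕ) * κ))) ≤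
      K1 * (Z * p * V * W ^ (16 * κ)) := by
  have e1 : W ^ (((3 : ℕ) : ℝ) * κ) ≤ W ^ (16 * κ) :=
    Real.rpow_le_rpow_of_exponent_le hW (by push_cast; linarith)
  have e2 : C1 ≤ C1 + C2 + C3 + 1 := by linarith
  have e3 := four_le (n := n)
  have e4 : 0 ≤ W ^ (((3 : ℕ) : ℝ) * κ) := Real.rpow_nonneg (by linarith) _
  rw [hK1, Real.rpow_one]
  calc (2 + 2 * (n : ℝ)) * (C1 * Z * p * (4 ^ n * V) * (4 ^ n * W ^ (((3 : ℕ) : ℝ) * κ)))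
      = (2 + 2 * (n : ℝ)) * C1 * (4 ^ n * 4 ^ n) *
        (Z * p * V * W ^ (((3 : ℕ) : ℝ) * κ)) := by ring
    _ ≤ (2 + 2 * (n : ℝ)) * (C1 + C2 + C3 + 1) * ((5 * 16 ^ n) * (4 ^ n) ^ 4) *
        (Z * p * V * W ^ (16 * κ)) := by gcongr
    _ = _ := by ring

/-- the second moment, total -/
lemma num2' {n : ℕ} {C1 C2 C3 Z p V W κ K1 : ℝ} (hC1 : 0 ≤ C1) (hC2 : 0 ≤ C2) (hC3 : 0 ≤ C3)
    (hZ : 0 ≤ Z) (hp : 0 ≤ p) (hV : 0 ≤ V) (hW : 1 ≤ W)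
    (hK1 : K1 = (2 + 2 * n) * (C1 + C2 + C3 + 1) * (5 * 16 ^ n) * (4 ^ n) ^ 4) :
    (2 + 2 * (n : ℝ)) * (C2 * Z * (5 * 16 ^ n * (p * V)) *
      ((4 ^ n) ^ (4 : ℝ) * W ^ ((4 : ℕ) * (4 * κ)))) ≤
      K1 * (Z * p * V * W ^ (16 * κ)) := by
  have e0 : ((4 : ℝ) ^ n) ^ (4 : ℝ) = (4 ^ n) ^ 4 := by
    exact_mod_cast Real.rpow_natCast ((4 : ℝ) ^ n) 4
  have e1 : W ^ (((4 : ℕ) : ℝ) * (4 * κ)) = W ^ (16 * κ) := by
    congr 1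
    push_cast
    ring
  have e2 : C2 ≤ C1 + C2 + C3 + 1 := by linarith
  have e4 : 0 ≤ W ^ (16 * κ) := Real.rpow_nonneg (by linarith) _
  rw [hK1, e0, e1]
  calc (2 + 2 * (n : ℝ)) * (C2 * Z * (5 * 16 ^ n * (p * V)) * ((4 ^ n) ^ 4 * W ^ (16 * κ)))
      = (2 + 2 * (n : ℝ)) * C2 * (5 * 16 ^ n) * (4 ^ n) ^ 4 *
        (Z * p * V * W ^ (16 * κ)) := by ring
    _ ≤ (2 + 2 * (n : ℝ)) * (C1 + C2 + C3 + 1) * (5 * 16 ^ n) * (4 ^ n) ^ 4 *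
        (Z * p * V * W ^ (16 * κ)) := by gcongr

/-- the fourth moment, total -/
lemma num3' {n : ℕ} {C1 C2 C3 Z N W κ K1 l : ℝ} (hC1 : 0 ≤ C1) (hC2 : 0 ≤ C2) (hC3 : 0 ≤ C3)
    (hZ : 0 ≤ Z) (hN : 1 ≤ N) (hNW : N ≤ W) (hκ : 0 ≤ κ) (hl : 0 ≤ l) (hl2 : l ≤ 1 + 2 * n)
    (hK1 : K1 = (2 + 2 * n) * (C1 + C2 + C3 + 1) * (5 * 16 ^ n) * (4 ^ n) ^ 4) :
    C3 * Z * N ^ (1 / 2 + 4 * κ) * l ≤ K1 * (Z * N ^ (1 / 2 : ℝ) * W ^ (4 * κ)) := by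
  have hN0 : 0 < N := by linarith
  have e1 : N ^ (1 / 2 + 4 * κ) ≤ N ^ (1 / 2 : ℝ) * W ^ (4 * κ) := by
    rw [Real.rpow_add hN0]
    exact mul_le_mul_of_nonneg_left (Real.rpow_le_rpow hN0.le hNW (by positivity))
      (Real.rpow_nonneg hN0.le _)
  have e2 : C3 ≤ C1 + C2 + C3 + 1 := by linarith
  have e3 : l ≤ 2 + 2 * n := by linarith
  have hpow4 : (1 : ℝ) ≤ 4 ^ n := one_le_pow₀ (by norm_num)
  have hpow16 : (1 : ℝ) ≤ 16 ^ n := one_le_pow₀ (by norm_num)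
  have e4 : (1 : ℝ) ≤ (5 * 16 ^ n) * (4 ^ n) ^ 4 := by
    have h5 : (1 : ℝ) ≤ 5 * 16 ^ n := by linarith
    exact one_le_mul_of_one_le_of_one_le h5 (one_le_pow₀ hpow4)
  have e5 : 0 ≤ N ^ (1 / 2 + 4 * κ) := Real.rpow_nonneg hN0.le _
  have e6 : 0 ≤ N ^ (1 / 2 : ℝ) * W ^ (4 * κ) := e5.trans e1
  rw [hK1]
  calc C3 * Z * N ^ (1 / 2 + 4 * κ) * l
      ≤ (C1 + C2 + C3 + 1) * Z * (N ^ (1 / 2 : ℝ) * W ^ (4 * κ)) * (2 + 2 * n) := by gcongr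
    _ = ((2 + 2 * (n : ℝ)) * (C1 + C2 + C3 + 1) * 1) *
        (Z * (N ^ (1 / 2 : ℝ) * W ^ (4 * κ))) := by ring
    _ ≤ ((2 + 2 * (n : ℝ)) * (C1 + C2 + C3 + 1) * ((5 * 16 ^ n) * (4 ^ n) ^ 4)) *
        (Z * (N ^ (1 / 2 : ℝ) * W ^ (4 * κ))) := by gcongr
    _ = _ := by ring

end Pool.Agent.H16.BG
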