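import Pool.Agent.H16.BG.HLb

/-!
# (HL) The inequality of Hoelder over the positions
-/

set_option autoImplicit false

open NumberField NumberField.InfinitePlace NumberField.Units
  NumberField.Units.dirichletUnitTheorem MeasureTheory Set Filter Complex
open scoped nonZeroDivisors ENNReal

namespace Pool.Agent.H16.BG

open Pool.Agent.H25.HK Pool.Agent.H23.LB Pool.Agent.H23.LC Pool.Agent.H29.DW Pool.Agent.H23.BG
open Pool.Agent.H28.RC (Rep ft idl)
open Pool.Agent.H29.TC (dvs cq LC Gn MC)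

section NF

variable {K : Type} [Field K] [NumberField K]

lemma om_pos (θ : InfinitePlace K → ℝ) : Pos (om true θ) := by
  classical
  constructor
  · intro v
    unfold om an
    simp only [if_true]
    split_ifs
    · simp
    · simp
    · rw [Complex.norm_exp_ofReal_mul_I]
  · intro v hv
    unfold om an
    simp only [if_true]
    rw [if_pos hv]
    split_ifs <;> simp

end NF

set_option maxHeartbeats 1000000 in
/-- (HL) the inequality of Hoelder over the positions. -/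
theorem pf_P_HL (hSG : P_SG) (hSH : P_SH) (hT4 : P_T4) (hMN : P_MN) (hCB : P_CB) :
    Pool.Agent.H23.BG.P_HL := by
  classical
  intro n hn
  obtain ⟨C0, hC0, hSG⟩ := hSG n
  refine ⟨C0 * (1 + (2 * Real.pi) ^ n), by positivity, ?_⟩
  intro K _ _ hK f hf hft χ ι _ M hM X hX cp H p B hPw hB hp P A τ₁ c₁ c₂ c₃ hPne hA hc1 hc2 hc3
    hP I1 I2 I3
  obtain ⟨α, β, α1, β1, α2, α3, β2, hsep⟩ := hSG K hK cp H p B hPw hB hp
  obtain ⟨Cb, -, hCB⟩ := hCB n hn
  obtain ⟨J, hJ⟩ : ∃ J : Set ℝ, J = Icc (τ₁ + n * Real.log (A / 4))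
    (τ₁ + 1 + n * Real.log A) := ⟨_, rfl⟩
  have hD : 0 < C0 * B ^ n := by positivity
  obtain ⟨D, hDdef⟩ : ∃ D : ℝ, D = C0 * B ^ n := ⟨_, rfl⟩
  rw [← hDdef] at hD β2
  -- the boxes
  obtain ⟨S, hS⟩ : ∃ S : ι → ℝ → logSpace K → Finset K, ∀ c τ z, ((S c τ z : Finset K) : Set K) =
      Bx K (M c) (fun v => yM K (M c) τ z v + hs H v) :=
    ⟨fun c τ z => ((hCB K hK (M c) (fun v => yM K (M c) τ z v + hs H v)
      (hM.1 c)).1).toFinset, fun c τ z => by simp⟩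
  -- the sum at one position
  obtain ⟨F, hF⟩ : ∃ F : ℝ → ι → logSpace K → (InfinitePlace K → ℝ) → ℝ≥0∞, F =
    fun τ c z θ => ENNReal.ofReal ‖∑' x : {x : K // x ∈ M c}, cg χ (M c) x *
        Wg cp H p x (yM K (M c) τ z) (om true θ)‖ := ⟨_, rfl⟩
  obtain ⟨G, hG⟩ : ∃ G : ℕ → ℝ → ι → logSpace K → (InfinitePlace K → ℝ) → ℝ≥0∞, G =
    fun a τ c z θ => ∫⁻ s in SqK K, ∑ r ∈ X c, nu K f (M c) H a (yM K (M c) τ z) (om true θ) r *
      ENNReal.ofReal (‖∑ b ∈ S c τ z, β s (fun v => wv v b (yM K (M c) τ z) (om true θ)) *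
        cg χ (M c) (r + b)‖ / ((S c τ z).card : ℝ)) := ⟨_, rfl⟩
  have hshift : ∀ a ∈ P, ∀ τ c z θ, F τ c z θ ≤ G a (τ + n * Real.log a) c z θ := by
    intro a ha τ c z θ
    obtain ⟨ap, -, -, acop⟩ := hP a ha
    rw [hF, hG]
    exact hSH K f hf hft χ cp H p B α β D hPw hp α1 β1 α2 α3 β2 hsep (M c) (X c) a
      (yM K (M c) τ z) (yM K (M c) (τ + n * Real.log a) z) (om true θ)
      (S c (τ + n * Real.log a) z) (hM.1 c) (hX c) ap.pos acop (om_pos θ)
      (fun v => yM_log hK hn (M c) τ (Real.log a) z v) (hS c _ z)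
  -- the functional
  have hLHS : ∫⁻ τ in Icc τ₁ (τ₁ + 1), ∑ c, ∫⁻ z in Fd K, ∫⁻ θ in An K,
      ENNReal.ofReal ‖∑' x : {x : K // x ∈ M c}, cg χ (M c) x *
        Wg cp H p x (yM K (M c) τ z) (om true θ)‖ =
      Lf (volume.restrict (Fd K)) (volume.restrict (An K)) (Icc τ₁ (τ₁ + 1)) F := by
    rw [hF]
    rfl
  rw [hLHS]
  have hstep : ∀ a ∈ P, Lf (volume.restrict (Fd K)) (volume.restrict (An K))
      (Icc τ₁ (τ₁ + 1)) F ≤ Lf (volume.restrict (Fd K)) (volume.restrict (An K)) J (G a) := by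
    intro a ha
    obtain ⟨ap, a1, a2, -⟩ := hP a ha
    refine (Lf_mono _ _ (hshift a ha)).trans ?_
    rw [Lf_trans]
    refine Lf_mono_set _ _ ?_ _
    rw [hJ]
    have hapos : (0 : ℝ) < a := by exact_mod_cast ap.pos
    have l1 : Real.log (A / 4) ≤ Real.log a :=
      Real.log_le_log (by positivity) a1.le
    have l2 : Real.log a ≤ Real.log A := Real.log_le_log hapos a2
    have hn' : (0 : ℝ) ≤ n := by positivity
    exact Icc_subset_Icc (by nlinarith) (by nlinarith)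
  have hsum : (P.card : ℝ≥0∞) * Lf (volume.restrict (Fd K)) (volume.restrict (An K))
      (Icc τ₁ (τ₁ + 1)) F ≤ Lf (volume.restrict (Fd K)) (volume.restrict (An K)) J
        (fun τ c z θ => ∑ a ∈ P, G a τ c z θ) := by
    rw [← nsmul_eq_mul, ← Finset.sum_const]
    exact (Finset.sum_le_sum hstep).trans (Lf_sum_le _ _ P G)
  -- the bound at one position
  obtain ⟨N1, hN1⟩ : ∃ N1 : ℝ → ι → logSpace K → (InfinitePlace K → ℝ) → ℝ≥0∞, N1 =
    fun τ c z θ => ∑ r ∈ X c, ∑ a ∈ P, nu K f (M c) H a (yM K (M c) τ z) (om true θ) r :=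
    ⟨_, rfl⟩
  obtain ⟨N2, hN2⟩ : ∃ N2 : ℝ → ι → logSpace K → (InfinitePlace K → ℝ) → ℝ≥0∞, N2 =
    fun τ c z θ => ∑ r ∈ X c, (∑ a ∈ P, nu K f (M c) H a (yM K (M c) τ z) (om true θ) r) ^ 2 :=
    ⟨_, rfl⟩
  obtain ⟨Q, hQ⟩ : ∃ Q : ℝ → ι → logSpace K → ℝ≥0∞, Q =
    fun τ c z => ENNReal.ofReal (q4 (X c) (cg χ (M c))
        (Bx K (M c) (fun v => yM K (M c) τ z v + hs H v))) := ⟨_, rfl⟩
  have hpos : ∀ τ c z θ, ∑ a ∈ P, G a τ c z θ ≤
      ENNReal.ofReal (D * (c₁ ^ (1 / 2 : ℝ) * c₂ ^ (1 / 4 : ℝ) * c₃ ^ (1 / 4 : ℝ))) *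
        (ENNReal.ofReal (1 / (2 * c₁)) * N1 τ c z θ + ENNReal.ofReal (1 / (4 * c₂)) * N2 τ c z θ +
          ENNReal.ofReal (1 / (4 * c₃)) * Q τ c z) := by
    intro τ c z θ
    rw [hG, hN1, hN2, hQ]
    exact position hT4 χ (M c) (X c) H P (yM K (M c) τ z) (om true θ) (S c τ z) (hS c τ z) β hD
      β2 hc1 hc2 hc3
  have hmu : ∀ c (r : K) (a : ℕ), Measurable (fun u : ℝ × logSpace K × (InfinitePlace K → ℝ) =>
      nu K f (M c) H a (yM K (M c) u.1 u.2.1) (om true u.2.2) r) := fun c r a =>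
    (hMN K f (M c) H a r (hM.1 c) hPw.one).2.1
  have hmN1 : ∀ c, Measurable (fun u : ℝ × logSpace K × (InfinitePlace K → ℝ) =>
      ENNReal.ofReal (1 / (2 * c₁)) * N1 u.1 c u.2.1 u.2.2) := by
    intro c
    rw [hN1]
    exact (Finset.measurable_sum _ fun r _ => Finset.measurable_sum _ fun a _ =>
      hmu c r a).const_mul _
  have hmN2 : ∀ c, Measurable (fun u : ℝ × logSpace K × (InfinitePlace K → ℝ) =>
      ENNReal.ofReal (1 / (4 * c₂)) * N2 u.1 c u.2.1 u.2.2) := by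
    intro c
    rw [hN2]
    exact (Finset.measurable_sum _ fun r _ => (Finset.measurable_sum _ fun a _ =>
      hmu c r a).pow_const 2).const_mul _
  have hI1 : Lf (volume.restrict (Fd K)) (volume.restrict (An K)) J N1 ≤ ENNReal.ofReal c₁ := by
    rw [hN1, hJ]
    exact I1
  have hI2 : Lf (volume.restrict (Fd K)) (volume.restrict (An K)) J N2 ≤ ENNReal.ofReal c₂ := by
    rw [hN2, hJ]
    exact I2
  have hAn : (volume.restrict (An K)) univ ≤ ENNReal.ofReal ((2 * Real.pi) ^ n) := by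
    rw [Measure.restrict_apply_univ]
    exact An_vol' hK
  have hI3 : Lf (volume.restrict (Fd K)) (volume.restrict (An K)) J (fun τ c z _ => Q τ c z) ≤
      ENNReal.ofReal ((2 * Real.pi) ^ n) * ENNReal.ofReal c₃ := by
    rw [Lf_angle _ _ _ (ne_top_of_le_ne_top ENNReal.ofReal_ne_top hAn)]
    refine mul_le_mul' hAn ?_
    rw [hQ, hJ]
    exact I3
  have hfin : Lf (volume.restrict (Fd K)) (volume.restrict (An K)) J
      (fun τ c z θ => ∑ a ∈ P, G a τ c z θ) ≤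
      ENNReal.ofReal (D * (c₁ ^ (1 / 2 : ℝ) * c₂ ^ (1 / 4 : ℝ) * c₃ ^ (1 / 4 : ℝ)) *
        (1 + (2 * Real.pi) ^ n)) := by
    refine (Lf_mono _ _ hpos).trans ?_
    rw [Lf_const _ _ _ ENNReal.ofReal_ne_top]
    have hm12 : ∀ c, Measurable (fun u : ℝ × logSpace K × (InfinitePlace K → ℝ) =>
      ENNReal.ofReal (1 / (2 * c₁)) * N1 u.1 c u.2.1 u.2.2 +
        ENNReal.ofReal (1 / (4 * c₂)) * N2 u.1 c u.2.1 u.2.2) := fun c =>
      (hmN1 c).add (hmN2 c)
    rw [Lf_add _ _ hm12, Lf_add _ _ hmN1, Lf_const _ _ _ ENNReal.ofReal_ne_top,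
      Lf_const _ _ _ ENNReal.ofReal_ne_top, Lf_const _ _ _ ENNReal.ofReal_ne_top]
    have e : ENNReal.ofReal (D * (c₁ ^ (1 / 2 : ℝ) * c₂ ^ (1 / 4 : ℝ) * c₃ ^ (1 / 4 : ℝ)) *
        (1 + (2 * Real.pi) ^ n)) =
        ENNReal.ofReal (D * (c₁ ^ (1 / 2 : ℝ) * c₂ ^ (1 / 4 : ℝ) * c₃ ^ (1 / 4 : ℝ))) *
          ENNReal.ofReal (1 + (2 * Real.pi) ^ n) :=
      ENNReal.ofReal_mul (by positivity)
    rw [e]
    refine mul_le_mul_right ?_ _
    refine (add_le_add (add_le_add (mul_le_mul_right hI1 _) (mul_le_mul_right hI2 _))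
      (mul_le_mul_right hI3 _)).trans ?_
    rw [← ENNReal.ofReal_mul (by positivity), ← ENNReal.ofReal_mul (by positivity),
      ← ENNReal.ofReal_mul (by positivity), ← ENNReal.ofReal_mul (by positivity),
      ← ENNReal.ofReal_add (by positivity) (by positivity),
      ← ENNReal.ofReal_add (by positivity) (by positivity)]
    refine ENNReal.ofReal_le_ofReal ?_
    have e1 : 1 / (2 * c₁) * c₁ = 1 / 2 := by field_simp
    have e2 : 1 / (4 * c₂) * c₂ = 1 / 4 := by field_simp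
    have e3 : 1 / (4 * c₃) * ((2 * Real.pi) ^ n * c₃) = (2 * Real.pi) ^ n / 4 := by field_simp
    rw [e1, e2, e3]
    have : 0 ≤ (2 * Real.pi) ^ n := by positivity
    linarith
  have hall := hsum.trans hfin
  -- divide by the number of primes
  have hcard : (0 : ℝ) < P.card := by exact_mod_cast Finset.card_pos.2 hPne
  have hcard' : (P.card : ℝ≥0∞) = ENNReal.ofReal (P.card : ℝ) := by
    rw [ENNReal.ofReal_natCast]
  have hne : (P.card : ℝ≥0∞) ≠ 0 := by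
    exact_mod_cast (Finset.card_pos.2 hPne).ne'
  have hdiv : Lf (volume.restrict (Fd K)) (volume.restrict (An K)) (Icc τ₁ (τ₁ + 1)) F ≤
      (P.card : ℝ≥0∞)⁻¹ * ENNReal.ofReal (D * (c₁ ^ (1 / 2 : ℝ) * c₂ ^ (1 / 4 : ℝ) *
        c₃ ^ (1 / 4 : ℝ)) * (1 + (2 * Real.pi) ^ n)) := by
    rw [← one_mul (Lf _ _ _ _), ← ENNReal.inv_mul_cancel hne (ENNReal.natCast_ne_top _), mul_assoc]
    exact mul_le_mul_right hall _
  refine hdiv.trans (le_of_eq ?_)
  rw [hcard', ← ENNReal.ofReal_inv_of_pos hcard, ← ENNReal.ofReal_mul (by positivity)]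
  congr 1
  rw [hDdef]
  ring

end Pool.Agent.H16.BG
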