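import Pool.Agent.H16.BG.MRb
import Pool.Agent.H16.BG.MRc

/-!
# (MR) The bound of Burgess in the middle range
-/

set_option autoImplicit false

open NumberField NumberField.InfinitePlace NumberField.Units
  NumberField.Units.dirichletUnitTheorem MeasureTheory Set Filter Complex
open scoped nonZeroDivisors ENNReal

namespace Pool.Agent.H16.BG

open Pool.Agent.H25.HK Pool.Agent.H23.LB Pool.Agent.H23.LC Pool.Agent.H29.DW Pool.Agent.H23.BG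
open Pool.Agent.H28.RC (Rep ft idl)
open Pool.Agent.H29.TC (dvs cq LC Gn MC)

section NF

variable {K : Type} [Field K] [NumberField K]

lemma cop_top {f : Ideal (𝓞 K)} {a : ℕ} (h4 : Nat.Coprime a (Ideal.absNorm f)) :
    Ideal.span {(a : 𝓞 K)} ⊔ f = ⊤ := by
  rw [Ideal.eq_top_iff_one]
  have h5 : IsCoprime (a : ℤ) (Ideal.absNorm f : ℤ) := Nat.isCoprime_iff_coprime.2 h4
  obtain ⟨u, v, huv⟩ := h5
  have h6 : ((u : 𝓞 K)) * (a : 𝓞 K) + (v : 𝓞 K) * (Ideal.absNorm f : 𝓞 K) = 1 := by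
    exact_mod_cast congrArg (fun x : ℤ => (x : 𝓞 K)) huv
  rw [← h6]
  exact Ideal.add_mem _
    (Ideal.mem_sup_left (Ideal.mul_mem_left _ _ (Ideal.mem_span_singleton_self _)))
    (Ideal.mem_sup_right (Ideal.mul_mem_left _ _ (Ideal.absNorm_mem f)))

lemma cw_pos : 0 < cw K := by
  unfold cw
  have : 0 < torsionOrder K := Nat.pos_of_ne_zero (NeZero.ne _)
  have h1 : (0 : ℝ) < torsionOrder K := by exact_mod_cast this
  positivity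

end NF

lemma card_le_A {P : Finset ℕ} {A : ℝ} (hA : 0 ≤ A) (hP : ∀ a ∈ P, a.Prime ∧ (a : ℝ) ≤ A) :
    (P.card : ℝ) ≤ A := by
  have h1 : P ⊆ Finset.Icc 1 ⌊A⌋₊ := by
    intro a ha
    obtain ⟨h1, h2⟩ := hP a ha
    exact Finset.mem_Icc.2 ⟨h1.one_le, Nat.le_floor h2⟩
  have h2 := Finset.card_le_card h1
  rw [Nat.card_Icc, Nat.add_sub_cancel] at h2
  calc (P.card : ℝ) ≤ (⌊A⌋₊ : ℝ) := by exact_mod_cast h2
    _ ≤ A := Nat.floor_le hA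

lemma vv_upper {n : ℕ} {N V A v : ℝ} (hN : 1 ≤ N) (hA : 1 ≤ A) (hv : 0 ≤ v)
    (hV2 : V ≤ N ^ (3 / 4 : ℝ)) (f1 : A ^ n * v ≤ 4 ^ n * V) : v ≤ N ^ 2 * 16 ^ n := by
  have h0 : (1 : ℝ) ≤ A ^ n := one_le_pow₀ hA
  have h416 : (4 : ℝ) ^ n ≤ 16 ^ n := pow_le_pow_left₀ (by norm_num) (by norm_num) n
  have g1 : v ≤ 4 ^ n * V := by
    calc v = 1 * v := (one_mul v).symm
      _ ≤ A ^ n * v := by gcongr
      _ ≤ _ := f1
  have g2 : V ≤ N := hV2.trans (by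
    calc N ^ (3 / 4 : ℝ) ≤ N ^ (1 : ℝ) := Real.rpow_le_rpow_of_exponent_le hN (by norm_num)
      _ = N := Real.rpow_one N)
  have h5 : N ≤ N ^ 2 := by nlinarith
  calc v ≤ 4 ^ n * V := g1
    _ ≤ 4 ^ n * N ^ 2 := by
        have := g2.trans h5
        gcongr
    _ ≤ 16 ^ n * N ^ 2 := by gcongr
    _ = N ^ 2 * 16 ^ n := by ring

set_option maxHeartbeats 1000000 in
/-- (MR) the bound of Burgess in the middle range. -/
theorem pf_P_MR (hHL : P_HL) (hN1 : P_N1) (hN2 : P_N2) (hM4 : P_M4) (hPR : P_PR)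
    (hRX : Pool.Agent.H28.RC.T_RX) : Pool.Agent.H23.BG.P_MR := by
  classical
  intro n hn ε hε hε1
  obtain ⟨κ, hκ⟩ : ∃ κ : ℝ, κ = ε / 40 := ⟨_, rfl⟩
  have hκ0 : 0 < κ := by rw [hκ]; positivity
  have hκ1 : κ ≤ 1 := by rw [hκ]; linarith
  obtain ⟨C1, hC1, hN1⟩ := hN1 n hn κ hκ0 hκ1
  obtain ⟨C2, hC2, hN2⟩ := hN2 n hn κ hκ0 hκ1
  obtain ⟨C3, hC3, hM4⟩ := hM4 n hn κ hκ0 hκ1
  obtain ⟨C4, hC4, hHL⟩ := hHL n hn
  obtain ⟨c, hc, N0, hPR⟩ := hPR (1 / (16 * (n : ℝ))) ε (by positivity) hε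
  obtain ⟨K1, hK1⟩ : ∃ K1 : ℝ, K1 = (2 + 2 * n) * (C1 + C2 + C3 + 1) * (5 * 16 ^ n) * (4 ^ n) ^ 4 :=
    ⟨_, rfl⟩
  have hK10 : 0 < K1 := by rw [hK1]; positivity
  refine ⟨(C4 + 1) * K1 * c ^ (-(1 / 4) : ℝ) * (3 * 16 ^ n),
    max ((3 * 16 ^ n : ℝ) ^ 16) N0, by positivity, ?_⟩
  intro K _ _ hK f hf hNf hNf1 χ hχ ι _ M hM cp H p B V τ₁ hPw hB hp hV hV1 hV2
  have hft : f ≠ ⊤ := by
    rintro rfl
    unfold Nf at hNf1
    rw [Ideal.absNorm_top] at hNf1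
    simp at hNf1
  obtain ⟨N, hN⟩ : ∃ N : ℝ, N = Nf K f := ⟨_, rfl⟩
  have hN1' : 1 ≤ N := by rw [hN]; exact Nf_ge hf
  rw [← hN] at hNf hNf1 hV1 hV2 ⊢
  have hNk : (3 * 16 ^ n : ℝ) ^ 16 ≤ N := (le_max_left _ _).trans hNf
  have hNN0 : (N0 : ℝ) ≤ N := (le_max_right _ _).trans hNf
  obtain ⟨A, hA1, hAδ, hAn, hA3, hAΨ⟩ := exists_A hn hNk hV1
  -- the primes
  obtain ⟨P, hP, hPc⟩ := hPR (Ideal.absNorm f) (by
    have : (N0 : ℝ) ≤ (Ideal.absNorm f : ℝ) := by rw [hN] at hNN0; exact hNN0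
    exact_mod_cast this) A (by rw [hN] at hAδ; exact hAδ)
  have hA0 : 0 < A := lt_of_lt_of_le one_pos hA1
  have hPpos : 0 < (P.card : ℝ) := lt_of_lt_of_le (by positivity) hPc
  have hPne : P.Nonempty := Finset.card_pos.1 (by exact_mod_cast hPpos)
  have hPA : (P.card : ℝ) ≤ A := card_le_A hA0.le fun a ha => ⟨(hP a ha).1, (hP a ha).2.2.1⟩
  have hcop : ∀ a ∈ P, a.Prime ∧ A / 4 < a ∧ (a : ℝ) ≤ A ∧ Ideal.span {(a : 𝓞 K)} ⊔ f = ⊤ :=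
    fun a ha => ⟨(hP a ha).1, (hP a ha).2.1, (hP a ha).2.2.1, cop_top (hP a ha).2.2.2⟩
  -- sizes
  obtain ⟨d, hd⟩ : ∃ d : ℝ, d = |(discr K : ℝ)| := ⟨_, rfl⟩
  obtain ⟨h, hh⟩ : ∃ h : ℝ, h = HH H := ⟨_, rfl⟩
  have hd1 : 1 ≤ d := by rw [hd]; exact discr_ge'
  have hh1 : 1 ≤ h := by rw [hh]; exact HH_ge hPw.one
  obtain ⟨W, hW⟩ : ∃ W : ℝ, W = d * N * h := ⟨_, rfl⟩
  obtain ⟨hW1, hdW, hNW, hhW, hNs, hs1⟩ := sizes hd1 hN1' hh1 hW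
  obtain ⟨s, hs⟩ : ∃ s : ℝ, s = Real.sqrt d * h := ⟨_, rfl⟩
  rw [← hs] at hNs hs1
  have hVt : ∀ τ, Vt K H τ = Real.exp (-τ) / s := by
    intro τ
    rw [hs, hh, hd]
    rfl
  have hVt0 : ∀ τ, 0 ≤ Vt K H τ := by
    intro τ
    rw [hVt]
    have := Real.exp_pos (-τ)
    positivity
  have hVs : V = Real.exp (-τ₁) / s := by rw [hV, hVt]
  have hV0 : 0 < V := by
    rw [hVs]
    exact div_pos (Real.exp_pos _) (lt_of_lt_of_le one_pos hs1)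
  have hq4 : N ^ (1 / 4 : ℝ) ≤ N := by
    calc N ^ (1 / 4 : ℝ) ≤ N ^ (1 : ℝ) := Real.rpow_le_rpow_of_exponent_le hN1' (by norm_num)
      _ = N := Real.rpow_one N
  have hAnW : A ^ n ≤ W := (hAn.trans hq4).trans hNW
  have hAW : A ≤ W := (le_self_pow₀ hA1 hn.ne').trans hAnW
  obtain ⟨a₀, ha₀⟩ : ∃ a₀ : ℝ, a₀ = τ₁ + n * Real.log (A / 4) := ⟨_, rfl⟩
  obtain ⟨b₀, hb₀⟩ : ∃ b₀ : ℝ, b₀ = τ₁ + 1 + n * Real.log A := ⟨_, rfl⟩
  have hfacts : ∀ τ, a₀ ≤ τ → τ ≤ b₀ →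
      A ^ n * Vt K H τ ≤ 4 ^ n * V ∧ 16 ^ n * N ^ (1 / 4 : ℝ) ≤ Vt K H τ ∧
      Real.exp |τ| ≤ 4 ^ n * W := by
    intro τ h1 h2
    rw [ha₀] at h1
    rw [hb₀] at h2
    rw [hVt]
    obtain ⟨f1, f2, f3⟩ := range_facts hN1' hs1 hA1 hVs hV2 hA3 h1 h2
    exact ⟨f1, f2, f3.trans (mul_le_mul_of_nonneg_left hNs (by positivity))⟩
  obtain ⟨Z, hZ⟩ : ∃ Z : ℝ, Z = cw K * d ^ ((1 + κ) / 2) := ⟨_, rfl⟩
  have hcw : 0 < cw K := cw_pos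
  have hZ0 : 0 < Z := by
    rw [hZ]
    exact mul_pos hcw (Real.rpow_pos_of_pos (lt_of_lt_of_le one_pos hd1) _)
  have hW0 : 0 < W := lt_of_lt_of_le one_pos hW1
  have hN0' : 0 < N := lt_of_lt_of_le one_pos hN1'
  -- representatives
  choose X hX hXc using fun c : ι => hRX K f (M c) hf (hM.1 c)
  obtain ⟨hlen0, hlen⟩ := len_facts (n := n) (τ₁ := τ₁) hA1
  rw [← ha₀, ← hb₀] at hlen0 hlen
  obtain ⟨c12, hc12⟩ : ∃ c12 : ℝ, c12 = K1 * (Z * P.card * V * W ^ (16 * κ)) := ⟨_, rfl⟩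
  obtain ⟨c3, hc3⟩ : ∃ c3 : ℝ, c3 = K1 * (Z * N ^ (1 / 2 : ℝ) * W ^ (4 * κ)) := ⟨_, rfl⟩
  have hc120 : 0 < c12 := by rw [hc12]; positivity
  have hc30 : 0 < c3 := by rw [hc3]; positivity
  refine (hHL K hK f hf hft χ ι M hM X hX cp H p B hPw hB hp P A τ₁ c12 c12 c3 hPne hA1 hc120
    hc120 hc30 hcop ?_ ?_ ?_).trans ?_
  · -- the first moment
    rw [← ha₀, ← hb₀, hc12]
    refine expand hlen0 hlen _ _ (C1 * Z * P.card * (4 ^ n * V) *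
      ((4 ^ n) ^ (1 : ℝ) * W ^ ((3 : ℕ) * κ))) _ (by positivity)
      (fun τ _ _ => hN1 K hK f hf ι M hM X hX H P A τ hPw.one hA1 hcop) (fun τ h1 h2 => ?_)
      (num1' hC1 hC2 hC3 hZ0.le hPpos.le hV0.le hW1 hκ0.le hK1)
    obtain ⟨f1, f2, f3⟩ := hfacts τ h1 h2
    rw [← hd, ← hZ, ← hh]
    exact num1 hC1 hZ0.le hPpos.le hV0.le hA1 (hVt0 τ) hh1 (Real.exp_pos _).le hW1 hκ0.le hκ1
      f1 f3 hAnW hhW
  · -- the second moment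
    rw [← ha₀, ← hb₀, hc12]
    refine expand hlen0 hlen _ _ (C2 * Z * (5 * 16 ^ n * (P.card * V)) *
      ((4 ^ n) ^ (4 : ℝ) * W ^ ((4 : ℕ) * (4 * κ)))) _ (by positivity)
      (fun τ _ _ => hN2 K hK f hf ι M hM X hX H P A (A ^ n * Vt K H τ) τ hPw.one hA1 rfl hcop)
      (fun τ h1 h2 => ?_) (num2' hC1 hC2 hC3 hZ0.le hPpos.le hV0.le hW1 hK1)
    obtain ⟨f1, f2, f3⟩ := hfacts τ h1 h2
    rw [← hd, ← hZ, ← hh, ← hN]
    exact num2 hn hC2 hZ0.le hPpos.le hV0 hA1 (hVt0 τ) hh1 (Real.exp_pos _).le hW1 hκ0.le hκ1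
      f1 f3 hAnW hhW hN1' hNW hV2 hAn hPA
  · -- the fourth moment
    rw [← ha₀, ← hb₀]
    have hpt : ∀ τ ∈ Icc a₀ b₀, ∑ c, ∫⁻ z in Fd K, ENNReal.ofReal (q4 (X c) (cg χ (M c))
        (Bx K (M c) (fun v => yM K (M c) τ z v + Pool.Agent.H23.BG.hs H v))) ≤
        ENNReal.ofReal (C3 * Z * N ^ (1 / 2 + 4 * κ)) := by
      rintro τ ⟨h1, h2⟩
      obtain ⟨f1, f2, f3⟩ := hfacts τ h1 h2
      have hVV := VV_eq hK hPw.one τ
      rw [hZ, hd, hN]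
      refine hM4 K hK f hf hft χ hχ ι M hM X hX (Pool.Agent.H23.BG.hs H) τ ?_ ?_
      · rw [hVV, ← hN, le_div_iff₀ (by positivity), mul_comm]
        exact f2
      · rw [hVV, ← hN, div_le_iff₀ (by positivity)]
        exact vv_upper hN1' hA1 (hVt0 τ) hV2 f1
    refine (setLIntegral_mono' measurableSet_Icc hpt).trans ?_
    rw [setLIntegral_const, Real.volume_Icc, ← ENNReal.ofReal_mul (by positivity)]
    refine ENNReal.ofReal_le_ofReal ?_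
    rw [hc3]
    exact num3' hC1 hC2 hC3 hZ0.le hN1' hNW hκ0.le hlen0 hlen hK1
  · -- the combination
    refine ENNReal.ofReal_le_ofReal ?_
    rw [← hd, ← hh, ← hW]
    have hB0 : (0 : ℝ) < B ^ n := pow_pos (lt_of_lt_of_le one_pos hB) n
    have hΨ : 0 < Psi n N V := by
      unfold Psi
      split_ifs
      · exact mul_pos (Real.rpow_pos_of_pos hV0 _) (Real.rpow_pos_of_pos hN0' _)
      · exact mul_pos (Real.rpow_pos_of_pos hV0 _) (Real.rpow_pos_of_pos hN0' _)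
    have hfin := final_numbers (C4 := C4 + 1) (Bn := B ^ n) (p := P.card) (K1 := K1) (Z := Z)
      (V := V) (W := W) (N := N) (A := A) (c := c) (Ψ := Psi n N V) (cv := cw K) (d := d)
      (k := 3 * 16 ^ n) hκ hε (by positivity) hB0 hPpos hK10 hV0 hW1 hN1' hA1 hc hΨ hcw hd1
      (by positivity) hZ hdW hAW hPc hAΨ
    rw [← hc12, ← hc3] at hfin
    refine le_trans ?_ hfin
    have hr : 0 ≤ c12 ^ (1 / 2 : ℝ) * c12 ^ (1 / 4 : ℝ) * c3 ^ (1 / 4 : ℝ) :=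
      mul_nonneg (mul_nonneg (Real.rpow_nonneg hc120.le _) (Real.rpow_nonneg hc120.le _))
        (Real.rpow_nonneg hc30.le _)
    refine mul_le_mul_of_nonneg_right ?_ hr
    refine mul_le_mul_of_nonneg_right ?_ (inv_nonneg.2 hPpos.le)
    exact mul_le_mul_of_nonneg_right (le_add_of_nonneg_right zero_le_one) hB0.le

end Pool.Agent.H16.BG
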